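import Pool.Agent.H438R3.PA.Defs

/-!
# Terms, isomorphisms and the family of one-generated algebras
-/

namespace Pool.Agent.H438R3.PA

open Set

theorem mem_pr1 {S : Set (ℝ × ℝ)} {x y : ℝ} : (x, y) ∈ pr1 S ↔ y = 0 ∧ ∃ y', (x, y') ∈ S := Iff.rfl
theorem mem_pr2 {S : Set (ℝ × ℝ)} {x y : ℝ} : (x, y) ∈ pr2 S ↔ x = 0 ∧ ∃ x', (x', y) ∈ S := Iff.rfl
theorem mem_dprod {A B : Set (ℝ × ℝ)} {x y : ℝ} :
    (x, y) ∈ dprod A B ↔ (x, 0) ∈ A ∧ (0, y) ∈ B := Iff.rfl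

theorem pr1_subset (S : Set (ℝ × ℝ)) : pr1 S ⊆ axisX := fun _ h => h.1
theorem pr2_subset (S : Set (ℝ × ℝ)) : pr2 S ⊆ axisY := fun _ h => h.1

theorem pr1_of_subset {A : Set (ℝ × ℝ)} (h : A ⊆ axisX) : pr1 A = A := by
  ext ⟨x, y⟩
  rw [mem_pr1]
  constructor
  · rintro ⟨rfl, y', h'⟩
    have : y' = 0 := h h'
    subst this
    exact h'
  · intro h'
    exact ⟨h h', y, h'⟩

theorem pr2_of_subset {A : Set (ℝ × ℝ)} (h : A ⊆ axisY) : pr2 A = A := by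
  ext ⟨x, y⟩
  rw [mem_pr2]
  constructor
  · rintro ⟨rfl, y', h'⟩
    have : y' = 0 := h h'
    subst this
    exact h'
  · intro h'
    exact ⟨h h', x, h'⟩

theorem IsProjAlg.inter {F : Set (Set (ℝ × ℝ))} (hF : IsProjAlg F) {A B : Set (ℝ × ℝ)}
    (hA : A ∈ F) (hB : B ∈ F) : A ∩ B ∈ F := by
  have : A ∩ B = (Aᶜ ∪ Bᶜ)ᶜ := by rw [compl_union, compl_compl, compl_compl]
  rw [this]
  exact hF.compl _ (hF.union _ (hF.compl _ hA) _ (hF.compl _ hB))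

theorem IsProjAlg.univ_mem {F : Set (Set (ℝ × ℝ))} (hF : IsProjAlg F) : univ ∈ F := by
  obtain ⟨A, hA⟩ := hF.nonempty
  rw [← union_compl_self A]
  exact hF.union _ hA _ (hF.compl _ hA)

theorem IsProjAlg.empty_mem {F : Set (Set (ℝ × ℝ))} (hF : IsProjAlg F) : ∅ ∈ F := by
  rw [← compl_univ]
  exact hF.compl _ hF.univ_mem

/-- Terms. The product of a term is only applied to projections. -/
inductive Term (k : ℕ) : Type
  | var (i : Fin k) : Term k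
  | compl (t : Term k) : Term k
  | union (t s : Term k) : Term k
  | pr1 (t : Term k) : Term k
  | pr2 (t : Term k) : Term k
  | dprod (t s : Term k) : Term k
  deriving Countable

/-- Evaluation of terms; the product is applied to the projections of its arguments. -/
def Term.eval {k : ℕ} (S : Fin k → Set (ℝ × ℝ)) : Term k → Set (ℝ × ℝ)
  | var i => S i
  | compl t => (t.eval S)ᶜ
  | union t s => t.eval S ∪ s.eval S
  | pr1 t => PA.pr1 (t.eval S)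
  | pr2 t => PA.pr2 (t.eval S)
  | dprod t s => PA.dprod (PA.pr1 (t.eval S)) (PA.pr2 (s.eval S))

theorem Term.eval_mem {k : ℕ} {S : Fin k → Set (ℝ × ℝ)} {F : Set (Set (ℝ × ℝ))}
    (hF : IsProjAlg F) (hS : range S ⊆ F) (t : Term k) : t.eval S ∈ F := by
  induction t with
  | var i => exact hS ⟨i, rfl⟩
  | compl t ih => exact hF.compl _ ih
  | union t s iht ihs => exact hF.union _ iht _ ihs
  | pr1 t ih => exact hF.pr1 _ ih
  | pr2 t ih => exact hF.pr2 _ ih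
  | dprod t s iht ihs =>
    exact hF.dprod _ (hF.pr1 _ iht) _ (hF.pr2 _ ihs) (pr1_subset _) (pr2_subset _)

theorem isProjAlg_terms {k : ℕ} (hk : 0 < k) (S : Fin k → Set (ℝ × ℝ)) :
    IsProjAlg (range fun t : Term k => t.eval S) where
  nonempty := ⟨_, ⟨Term.var ⟨0, hk⟩, rfl⟩⟩
  compl := by
    rintro _ ⟨t, rfl⟩
    exact ⟨Term.compl t, rfl⟩
  union := by
    rintro _ ⟨t, rfl⟩ _ ⟨s, rfl⟩
    exact ⟨Term.union t s, rfl⟩
  pr1 := by
    rintro _ ⟨t, rfl⟩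
    exact ⟨Term.pr1 t, rfl⟩
  pr2 := by
    rintro _ ⟨t, rfl⟩
    exact ⟨Term.pr2 t, rfl⟩
  dprod := by
    rintro _ ⟨t, rfl⟩ _ ⟨s, rfl⟩ h1 h2
    refine ⟨Term.dprod t s, ?_⟩
    show PA.dprod (PA.pr1 (t.eval S)) (PA.pr2 (s.eval S)) = _
    rw [pr1_of_subset h1, pr2_of_subset h2]

theorem gen_eq {k : ℕ} (hk : 0 < k) (S : Fin k → Set (ℝ × ℝ)) :
    gen (range S) = range fun t : Term k => t.eval S := by
  apply Set.Subset.antisymm
  · intro A hA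
    refine hA _ (isProjAlg_terms hk S) ?_
    rintro _ ⟨i, rfl⟩
    exact ⟨Term.var i, rfl⟩
  · rintro _ ⟨t, rfl⟩ F hF hS
    exact t.eval_mem hF hS

theorem isProjAlg_gen {k : ℕ} (hk : 0 < k) (S : Fin k → Set (ℝ × ℝ)) :
    IsProjAlg (gen (range S)) := by
  rw [gen_eq hk]
  exact isProjAlg_terms hk S

/-- Morphisms on a family. -/
structure Mor (φ : Set (ℝ × ℝ) → Set (ℝ × ℝ)) (F : Set (Set (ℝ × ℝ))) : Prop where
  compl : ∀ A ∈ F, φ Aᶜ = (φ A)ᶜ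
  union : ∀ A ∈ F, ∀ B ∈ F, φ (A ∪ B) = φ A ∪ φ B
  pr1 : ∀ A ∈ F, φ (pr1 A) = PA.pr1 (φ A)
  pr2 : ∀ A ∈ F, φ (pr2 A) = PA.pr2 (φ A)
  dprod : ∀ A ∈ F, ∀ B ∈ F, A ⊆ axisX → B ⊆ axisY → φ (dprod A B) = PA.dprod (φ A) (φ B)

theorem iso_iff {F G : Set (Set (ℝ × ℝ))} : Iso F G ↔ ∃ φ, BijOn φ F G ∧ Mor φ F := by
  constructor
  · rintro ⟨φ, h, h1, h2, h3, h4, h5⟩
    exact ⟨φ, h, ⟨h1, h2, h3, h4, h5⟩⟩
  · rintro ⟨φ, h, ⟨h1, h2, h3, h4, h5⟩⟩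
    exact ⟨φ, h, h1, h2, h3, h4, h5⟩

theorem Mor.eval {φ : Set (ℝ × ℝ) → Set (ℝ × ℝ)} {F : Set (Set (ℝ × ℝ))} (hφ : Mor φ F)
    (hF : IsProjAlg F) {k : ℕ} {S : Fin k → Set (ℝ × ℝ)} (hS : range S ⊆ F) (t : Term k) :
    φ (t.eval S) = t.eval (fun i => φ (S i)) := by
  induction t with
  | var i => rfl
  | compl t ih =>
    show φ (t.eval S)ᶜ = (t.eval _)ᶜ
    rw [hφ.compl _ (t.eval_mem hF hS), ih]
  | union t s iht ihs =>
    show φ (t.eval S ∪ s.eval S) = t.eval _ ∪ s.eval _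
    rw [hφ.union _ (t.eval_mem hF hS) _ (s.eval_mem hF hS), iht, ihs]
  | pr1 t ih =>
    show φ (PA.pr1 (t.eval S)) = PA.pr1 (t.eval _)
    rw [hφ.pr1 _ (t.eval_mem hF hS), ih]
  | pr2 t ih =>
    show φ (PA.pr2 (t.eval S)) = PA.pr2 (t.eval _)
    rw [hφ.pr2 _ (t.eval_mem hF hS), ih]
  | dprod t s iht ihs =>
    show φ (PA.dprod (PA.pr1 (t.eval S)) (PA.pr2 (s.eval S))) =
      PA.dprod (PA.pr1 (t.eval _)) (PA.pr2 (s.eval _))
    rw [hφ.dprod _ (hF.pr1 _ (t.eval_mem hF hS)) _ (hF.pr2 _ (s.eval_mem hF hS))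
      (pr1_subset _) (pr2_subset _), hφ.pr1 _ (t.eval_mem hF hS),
      hφ.pr2 _ (s.eval_mem hF hS), iht, ihs]

theorem Mor.empty {φ : Set (ℝ × ℝ) → Set (ℝ × ℝ)} {F : Set (Set (ℝ × ℝ))} (hφ : Mor φ F)
    (hF : IsProjAlg F) : φ ∅ = ∅ := by
  have h1 := hφ.compl _ hF.empty_mem
  have h2 := hφ.union _ hF.empty_mem _ (hF.compl _ hF.empty_mem)
  have h3 := hφ.compl _ hF.univ_mem
  rw [h1, union_compl_self, union_compl_self] at h2
  rw [h2, compl_univ] at h3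
  exact h3

/-! ### Isomorphism is an equivalence relation -/

theorem Iso.refl (F : Set (Set (ℝ × ℝ))) : Iso F F :=
  iso_iff.2 ⟨id, bijOn_id F, ⟨fun _ _ => rfl, fun _ _ _ _ => rfl, fun _ _ => rfl, fun _ _ => rfl,
    fun _ _ _ _ _ _ => rfl⟩⟩

theorem Mor.subX {φ : Set (ℝ × ℝ) → Set (ℝ × ℝ)} {F : Set (Set (ℝ × ℝ))} (hφ : Mor φ F)
    {A : Set (ℝ × ℝ)} (hA : A ∈ F) (h : A ⊆ axisX) : φ A ⊆ axisX := by
  have := hφ.pr1 _ hA
  rw [pr1_of_subset h] at this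
  rw [this]
  exact pr1_subset _

theorem Mor.subY {φ : Set (ℝ × ℝ) → Set (ℝ × ℝ)} {F : Set (Set (ℝ × ℝ))} (hφ : Mor φ F)
    {A : Set (ℝ × ℝ)} (hA : A ∈ F) (h : A ⊆ axisY) : φ A ⊆ axisY := by
  have := hφ.pr2 _ hA
  rw [pr2_of_subset h] at this
  rw [this]
  exact pr2_subset _

theorem Mor.comp {φ ψ : Set (ℝ × ℝ) → Set (ℝ × ℝ)} {F G : Set (Set (ℝ × ℝ))} (hφ : Mor φ F)
    (hψ : Mor ψ G) (h : MapsTo φ F G) : Mor (ψ ∘ φ) F where
  compl A hA := by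
    show ψ (φ Aᶜ) = (ψ (φ A))ᶜ
    rw [hφ.compl _ hA, hψ.compl _ (h hA)]
  union A hA B hB := by
    show ψ (φ (A ∪ B)) = ψ (φ A) ∪ ψ (φ B)
    rw [hφ.union _ hA _ hB, hψ.union _ (h hA) _ (h hB)]
  pr1 A hA := by
    show ψ (φ (PA.pr1 A)) = PA.pr1 (ψ (φ A))
    rw [hφ.pr1 _ hA, hψ.pr1 _ (h hA)]
  pr2 A hA := by
    show ψ (φ (PA.pr2 A)) = PA.pr2 (ψ (φ A))
    rw [hφ.pr2 _ hA, hψ.pr2 _ (h hA)]
  dprod A hA B hB h1 h2 := by
    show ψ (φ (PA.dprod A B)) = PA.dprod (ψ (φ A)) (ψ (φ B))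
    rw [hφ.dprod _ hA _ hB h1 h2, hψ.dprod _ (h hA) _ (h hB) (hφ.subX hA h1) (hφ.subY hB h2)]

theorem Iso.trans {F G H : Set (Set (ℝ × ℝ))} (h1 : Iso F G) (h2 : Iso G H) : Iso F H := by
  rw [iso_iff] at *
  obtain ⟨φ, hφ, mφ⟩ := h1
  obtain ⟨ψ, hψ, mψ⟩ := h2
  exact ⟨ψ ∘ φ, hψ.comp hφ, mφ.comp mψ hφ.mapsTo⟩

theorem Iso.symm {F G : Set (Set (ℝ × ℝ))} (hF : IsProjAlg F) (h : Iso F G) : Iso G F := by
  rw [iso_iff] at *
  obtain ⟨φ, hφ, mφ⟩ := h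
  have hinv := hφ.invOn_invFunOn
  set ψ := Function.invFunOn φ F with hψ
  have hb : BijOn ψ G F := hφ.symm hinv.symm
  have key : ∀ A ∈ G, ∃ B ∈ F, φ B = A ∧ ψ A = B := by
    intro A hA
    exact ⟨ψ A, hb.mapsTo hA, hinv.2 hA, rfl⟩
  have back : ∀ B ∈ F, ψ (φ B) = B := fun B hB => hinv.1 hB
  refine ⟨ψ, hb, ⟨?_, ?_, ?_, ?_, ?_⟩⟩
  · intro A hA
    obtain ⟨B, hB, rfl, hB'⟩ := key A hA
    rw [back B hB, ← mφ.compl _ hB, back _ (hF.compl _ hB)]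
  · intro A hA A' hA'
    obtain ⟨B, hB, rfl, -⟩ := key A hA
    obtain ⟨B', hB', rfl, -⟩ := key A' hA'
    rw [back B hB, back B' hB', ← mφ.union _ hB _ hB', back _ (hF.union _ hB _ hB')]
  · intro A hA
    obtain ⟨B, hB, rfl, hB'⟩ := key A hA
    rw [back B hB, ← mφ.pr1 _ hB, back _ (hF.pr1 _ hB)]
  · intro A hA
    obtain ⟨B, hB, rfl, hB'⟩ := key A hA
    rw [back B hB, ← mφ.pr2 _ hB, back _ (hF.pr2 _ hB)]
  · intro A hA A' hA' h1 h2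
    obtain ⟨B, hB, rfl, -⟩ := key A hA
    obtain ⟨B', hB', rfl, -⟩ := key A' hA'
    have g1 : B ⊆ axisX := by
      have : φ (PA.pr1 B) = φ B := by rw [mφ.pr1 _ hB, pr1_of_subset h1]
      rw [← hφ.injOn (hF.pr1 _ hB) hB this]
      exact pr1_subset _
    have g2 : B' ⊆ axisY := by
      have : φ (PA.pr2 B') = φ B' := by rw [mφ.pr2 _ hB', pr2_of_subset h2]
      rw [← hφ.injOn (hF.pr2 _ hB') hB' this]
      exact pr2_subset _
    rw [back B hB, back B' hB', ← mφ.dprod _ hB _ hB' g1 g2, back _ (hF.dprod _ hB _ hB' g1 g2)]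

/-! ### The upper bound: isomorphism from equations -/

/-- The equations that hold for a tuple. -/
def eqs {k : ℕ} (S : Fin k → Set (ℝ × ℝ)) : Set (Term k × Term k) :=
  {p | p.1.eval S = p.2.eval S}

theorem iso_of_eqs {k : ℕ} (hk : 0 < k) {S S' : Fin k → Set (ℝ × ℝ)} (h : eqs S = eqs S') :
    Iso (gen (range S)) (gen (range S')) := by
  classical
  rw [gen_eq hk, gen_eq hk, iso_iff]
  have heq : ∀ t s : Term k, t.eval S = s.eval S ↔ t.eval S' = s.eval S' := by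
    intro t s
    have : (t, s) ∈ eqs S ↔ (t, s) ∈ eqs S' := by rw [h]
    exact this
  let φ : Set (ℝ × ℝ) → Set (ℝ × ℝ) := fun A =>
    if hA : ∃ t : Term k, t.eval S = A then (Classical.choose hA).eval S' else A
  have hφ : ∀ t : Term k, φ (t.eval S) = t.eval S' := by
    intro t
    have hA : ∃ s : Term k, s.eval S = t.eval S := ⟨t, rfl⟩
    show (if hA : ∃ s : Term k, s.eval S = t.eval S then (Classical.choose hA).eval S'
      else t.eval S) = _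
    rw [dif_pos hA]
    exact (heq _ _).1 (Classical.choose_spec hA)
  refine ⟨φ, ⟨?_, ?_, ?_⟩, ⟨?_, ?_, ?_, ?_, ?_⟩⟩
  · rintro _ ⟨t, rfl⟩
    exact ⟨t, (hφ t).symm⟩
  · rintro _ ⟨t, rfl⟩ _ ⟨s, rfl⟩ hts
    simp only [hφ] at hts
    exact (heq _ _).2 hts
  · rintro _ ⟨t, rfl⟩
    exact ⟨t.eval S, ⟨t, rfl⟩, hφ t⟩
  · rintro _ ⟨t, rfl⟩
    exact (hφ (Term.compl t)).trans (by simp only [hφ]; rfl)
  · rintro _ ⟨t, rfl⟩ _ ⟨s, rfl⟩
    exact (hφ (Term.union t s)).trans (by simp only [hφ]; rfl)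
  · rintro _ ⟨t, rfl⟩
    exact (hφ (Term.pr1 t)).trans (by simp only [hφ]; rfl)
  · rintro _ ⟨t, rfl⟩
    exact (hφ (Term.pr2 t)).trans (by simp only [hφ]; rfl)
  · rintro _ ⟨t, rfl⟩ _ ⟨s, rfl⟩ h1 h2
    simp only at h1 h2
    have e1 : t.eval S = (Term.pr1 t).eval S := (pr1_of_subset h1).symm
    have e2 : s.eval S = (Term.pr2 s).eval S := (pr2_of_subset h2).symm
    have e3 := (heq _ _).1 e1
    have e4 := (heq _ _).1 e2
    have e5 : PA.dprod (t.eval S) (s.eval S) = (Term.dprod t s).eval S := by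
      show _ = PA.dprod (PA.pr1 (t.eval S)) (PA.pr2 (s.eval S))
      rw [pr1_of_subset h1, pr2_of_subset h2]
    simp only
    rw [e5, hφ, hφ, hφ]
    show PA.dprod (PA.pr1 (t.eval S')) (PA.pr2 (s.eval S')) = _
    have e6 : PA.pr1 (t.eval S') = t.eval S' := e3.symm
    have e7 : PA.pr2 (s.eval S') = s.eval S' := e4.symm
    rw [e6, e7]

/-! ### The family -/

/-- The half graph, with marks on the horizontal axis at the points of `A`. -/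
def SA (A : Set ℕ) : Set (ℝ × ℝ) :=
  {p | ∃ m n : ℕ, m ≤ n ∧ p = ((m : ℝ) + 1, (n : ℝ) + 1)} ∪
    {p | ∃ m ∈ A, p = ((m : ℝ) + 1, (0 : ℝ))}

namespace T1

/-- The generator. -/
def s : Term 1 := Term.var 0
def inter (t s : Term 1) : Term 1 := Term.compl (Term.union (Term.compl t) (Term.compl s))
def diff (t s : Term 1) : Term 1 := inter t (Term.compl s)
/-- The horizontal axis. -/
def ax : Term 1 := Term.pr1 (Term.union s (Term.compl s))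
/-- The half graph. -/
def H : Term 1 := diff s ax
def dom : Term 1 := Term.pr1 H
def ran : Term 1 := Term.pr2 H
/-- Initial segments on the axes. -/
def seg : ℕ → Term 1 × Term 1
  | 0 => (diff dom (Term.pr1 (diff (Term.dprod dom ran) H)), diff s s)
  | n + 1 =>
    let Q := diff ran (Term.pr2 (inter (Term.dprod (diff dom (seg n).1) ran) H))
    (diff dom (Term.pr1 (diff (Term.dprod dom (diff ran Q)) H)), Q)
/-- The test whether `m` is marked. -/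
def mark : ℕ → Term 1
  | 0 => inter (seg 0).1 s
  | n + 1 => inter (diff (seg (n + 1)).1 (seg n).1) s

end T1

end Pool.Agent.H438R3.PA
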