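import Mathlib

/-!
# Projective algebras of plane sets
-/

namespace Pool.Agent.H438R3.PA

/-- The horizontal axis. -/
def axisX : Set (ℝ × ℝ) := {p | p.2 = 0}
/-- The vertical axis. -/
def axisY : Set (ℝ × ℝ) := {p | p.1 = 0}
/-- Projection of a plane set to the horizontal axis. -/
def pr1 (S : Set (ℝ × ℝ)) : Set (ℝ × ℝ) := {p | p.2 = 0 ∧ ∃ y, (p.1, y) ∈ S}
/-- Projection of a plane set to the vertical axis. -/
def pr2 (S : Set (ℝ × ℝ)) : Set (ℝ × ℝ) := {p | p.1 = 0 ∧ ∃ x, (x, p.2) ∈ S}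
/-- The direct product of a subset of the horizontal axis and a subset of the vertical axis. -/
def dprod (A B : Set (ℝ × ℝ)) : Set (ℝ × ℝ) := {p | (p.1, 0) ∈ A ∧ (0, p.2) ∈ B}

/-- `F` is a projective algebra of plane sets: a nonempty family of subsets of the plane closed
under complement, finite unions, the two projections, and the direct product of members lying on
the two axes. -/
structure IsProjAlg (F : Set (Set (ℝ × ℝ))) : Prop where
  nonempty : F.Nonempty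
  compl : ∀ A ∈ F, Aᶜ ∈ F
  union : ∀ A ∈ F, ∀ B ∈ F, A ∪ B ∈ F
  pr1 : ∀ A ∈ F, pr1 A ∈ F
  pr2 : ∀ A ∈ F, pr2 A ∈ F
  dprod : ∀ A ∈ F, ∀ B ∈ F, A ⊆ axisX → B ⊆ axisY → dprod A B ∈ F

/-- The family generated by a family of plane sets: the intersection of all projective algebras
containing it. -/
def gen (T : Set (Set (ℝ × ℝ))) : Set (Set (ℝ × ℝ)) := {A | ∀ F, IsProjAlg F → T ⊆ F → A ∈ F}

/-- Isomorphism of projective algebras. -/
def Iso (F G : Set (Set (ℝ × ℝ))) : Prop :=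
  ∃ φ : Set (ℝ × ℝ) → Set (ℝ × ℝ), Set.BijOn φ F G ∧
    (∀ A ∈ F, φ Aᶜ = (φ A)ᶜ) ∧ (∀ A ∈ F, ∀ B ∈ F, φ (A ∪ B) = φ A ∪ φ B) ∧
    (∀ A ∈ F, φ (pr1 A) = pr1 (φ A)) ∧ (∀ A ∈ F, φ (pr2 A) = pr2 (φ A)) ∧
    (∀ A ∈ F, ∀ B ∈ F, A ⊆ axisX → B ⊆ axisY → φ (dprod A B) = dprod (φ A) (φ B))

/-- The projective algebras generated by `k` plane sets. -/
def KGen (k : ℕ) : Type := {F : Set (Set (ℝ × ℝ)) // ∃ S : Fin k → Set (ℝ × ℝ), F = gen (Set.range S)}

end Pool.Agent.H438R3.PA
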