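import Pool.Agent.H438R3.PA.Marks

/-!
# Counting the algebras
-/

namespace Pool.Agent.H438R3.PA

open Set Cardinal

theorem isProjAlg_gen' (T : Set (Set (ℝ × ℝ))) : IsProjAlg (gen T) where
  nonempty := ⟨∅, fun _ hF _ => hF.empty_mem⟩
  compl A hA F hF hT := hF.compl _ (hA F hF hT)
  union A hA B hB F hF hT := hF.union _ (hA F hF hT) _ (hB F hF hT)
  pr1 A hA F hF hT := hF.pr1 _ (hA F hF hT)
  pr2 A hA F hF hT := hF.pr2 _ (hA F hF hT)
  dprod A hA B hB h1 h2 F hF hT := hF.dprod _ (hA F hF hT) _ (hB F hF hT) h1 h2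

/-- Isomorphism, as an equivalence relation on the projective algebras generated by `k` sets. -/
def isoSetoid (k : ℕ) : Setoid (KGen k) where
  r F G := Iso F.1 G.1
  iseqv := ⟨fun F => Iso.refl F.1, fun {F G} h => Iso.symm (by
    obtain ⟨S, hS⟩ := F.2
    rw [hS]
    exact isProjAlg_gen' _) h, fun h1 h2 => Iso.trans h1 h2⟩

theorem countable_gen {k : ℕ} (hk : 0 < k) (S : Fin k → Set (ℝ × ℝ)) :
    (gen (range S)).Countable := by
  rw [gen_eq hk]
  exact countable_range _

theorem upper (k : ℕ) (hk : 0 < k) : #(Quotient (isoSetoid k)) ≤ 𝔠 := by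
  classical
  have hS : ∀ q : Quotient (isoSetoid k), ∃ S : Fin k → Set (ℝ × ℝ), q.out.1 = gen (range S) :=
    fun q => q.out.2
  choose S hS using hS
  have hinj : Function.Injective (fun q => eqs (S q)) := by
    intro q q' h
    have h1 := iso_of_eqs hk h
    rw [← hS, ← hS] at h1
    rw [← Quotient.out_eq q, ← Quotient.out_eq q']
    exact Quotient.sound (s := isoSetoid k) h1
  have h2 := Cardinal.mk_le_of_injective hinj
  refine h2.trans ?_
  rw [Cardinal.mk_set, ← Cardinal.two_power_aleph0]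
  exact Cardinal.power_le_power_left two_ne_zero (Cardinal.mk_le_aleph0)

theorem FA_eq {k : ℕ} (hk : 0 < k) (A : Set ℕ) : FA A = gen (range fun _ : Fin k => SA A) := by
  have h1 : Nonempty (Fin k) := ⟨⟨0, hk⟩⟩
  unfold FA
  rw [range_const, range_const]

/-- If each algebra of a family of sets of marks embeds in one family, the latter is large. -/
theorem injective_values {I : Set (Set ℕ)} {U : Set (Set (ℝ × ℝ))}
    (h : ∀ A ∈ I, ∃ V ⊆ U, Iso (FA A) V) :
    ∃ f : I → U, Function.Injective f := by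
  have h' : ∀ A : I, ∃ φ : Set (ℝ × ℝ) → Set (ℝ × ℝ), InjOn φ (FA A) ∧ Mor φ (FA A) ∧
      φ (SA A) ∈ U := by
    intro A
    obtain ⟨V, hV, hi⟩ := h A A.2
    rw [iso_iff] at hi
    obtain ⟨φ, hφ, mφ⟩ := hi
    exact ⟨φ, hφ.injOn, mφ, hV (hφ.mapsTo (SA_mem _))⟩
  choose φ h1 h2 h3 using h'
  refine ⟨fun A => ⟨φ A (SA A), h3 A⟩, ?_⟩
  intro A B hAB
  have h4 : φ A (SA A) = φ B (SA B) := congrArg Subtype.val hAB
  exact Subtype.ext (eq_of_value (isProjAlg_FA _) (SA_mem _) (h2 A) (h1 A) (isProjAlg_FA _)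
    (SA_mem _) (h2 B) (h1 B) h4)

theorem lower (k : ℕ) (hk : 0 < k) : 𝔠 ≤ #(Quotient (isoSetoid k)) := by
  let f : Set ℕ → Quotient (isoSetoid k) := fun A =>
    Quotient.mk (isoSetoid k) ⟨FA A, fun _ => SA A, FA_eq hk A⟩
  have hf : ∀ q, #(f ⁻¹' {q}) ≤ ℵ₀ := by
    intro q
    obtain ⟨g, hg⟩ := injective_values (I := f ⁻¹' {q}) (U := q.out.1) (by
      intro A hA
      refine ⟨q.out.1, Subset.rfl, ?_⟩
      have h1 : f A = q := hA
      rw [← Quotient.out_eq q] at h1
      exact Quotient.exact h1)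
    have h2 : (q.out.1).Countable := by
      obtain ⟨S, hS⟩ := q.out.2
      rw [hS]
      exact countable_gen hk S
    have h3 : Countable q.out.1 := h2.to_subtype
    exact Cardinal.mk_le_aleph0_iff.2 hg.countable
  have h1 := Cardinal.mk_le_mk_mul_of_mk_preimage_le f hf
  by_contra hc
  push Not at hc
  have h2 : #(Quotient (isoSetoid k)) * ℵ₀ < 𝔠 :=
    Cardinal.mul_lt_of_lt Cardinal.aleph0_le_continuum hc Cardinal.aleph0_lt_continuum
  have h3 : #(Set ℕ) = 𝔠 := by
    rw [Cardinal.mk_set, Cardinal.mk_nat, Cardinal.two_power_aleph0]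
  rw [h3] at h1
  exact absurd h1 (not_le.2 h2)

/-- The number of isomorphism types of projective algebras generated by `k` sets. -/
theorem number (k : ℕ) (hk : 1 ≤ k) : #(Quotient (isoSetoid k)) = 𝔠 :=
  le_antisymm (upper k hk) (lower k hk)

/-- A projective algebra in which all one-generated ones embed is large. -/
theorem large {U : Set (Set (ℝ × ℝ))}
    (h : ∀ S : Set (ℝ × ℝ), ∃ V ⊆ U, IsProjAlg V ∧ Iso (gen {S}) V) : 𝔠 ≤ #U := by
  obtain ⟨f, hf⟩ := injective_values (I := univ) (U := U) (by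
    intro A _
    obtain ⟨V, hV, -, hi⟩ := h (SA A)
    refine ⟨V, hV, ?_⟩
    have : FA A = gen {SA A} := by
      unfold FA
      rw [range_const]
    rw [this]
    exact hi)
  have h1 := Cardinal.mk_le_of_injective hf
  rw [Cardinal.mk_univ, Cardinal.mk_set, Cardinal.mk_nat, Cardinal.two_power_aleph0] at h1
  exact h1

/-- There is no countable universal projective algebra. -/
theorem not_universal : ¬ ∃ U : Set (Set (ℝ × ℝ)), IsProjAlg U ∧ U.Countable ∧
    ∀ F : Set (Set (ℝ × ℝ)), IsProjAlg F → F.Countable → ∃ V ⊆ U, IsProjAlg V ∧ Iso F V := by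
  rintro ⟨U, -, hU, h⟩
  have h1 : 𝔠 ≤ #U := large fun S => h (gen {S}) (isProjAlg_gen' _) (by
    have := countable_gen (k := 1) (by norm_num) (fun _ => S)
    rwa [range_const] at this)
  have h2 : #U ≤ ℵ₀ := Cardinal.mk_le_aleph0_iff.2 hU.to_subtype
  exact absurd (h1.trans h2) (not_le.2 Cardinal.aleph0_lt_continuum)

end Pool.Agent.H438R3.PA
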