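import Pool.Agent.H438R3.PA.Basic

/-!
# The marks can be read off from the equations
-/

namespace Pool.Agent.H438R3.PA

open Set

/-- Sets of points of the horizontal axis, the vertical axis and the plane. -/
def PX (p : ℕ → Prop) : Set (ℝ × ℝ) := {z | ∃ m : ℕ, p m ∧ z = ((m : ℝ) + 1, (0 : ℝ))}
def QY (q : ℕ → Prop) : Set (ℝ × ℝ) := {z | ∃ n : ℕ, q n ∧ z = ((0 : ℝ), (n : ℝ) + 1)}
def RR (r : ℕ → ℕ → Prop) : Set (ℝ × ℝ) :=
  {z | ∃ m n : ℕ, r m n ∧ z = ((m : ℝ) + 1, (n : ℝ) + 1)}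

theorem cast_inj' {m n : ℕ} (h : (m : ℝ) + 1 = (n : ℝ) + 1) : m = n := by
  exact_mod_cast add_right_cancel h

theorem ne_zero' (m : ℕ) : (m : ℝ) + 1 ≠ 0 := by positivity

theorem PX_diff (p p' : ℕ → Prop) : PX p \ PX p' = PX fun m => p m ∧ ¬ p' m := by
  ext z
  constructor
  · rintro ⟨⟨m, h1, rfl⟩, h2⟩
    exact ⟨m, ⟨h1, fun h => h2 ⟨m, h, rfl⟩⟩, rfl⟩
  · rintro ⟨m, ⟨h1, h2⟩, rfl⟩
    refine ⟨⟨m, h1, rfl⟩, ?_⟩
    rintro ⟨m', h3, h4⟩
    rw [Prod.mk.injEq] at h4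
    rw [cast_inj' h4.1] at h2
    exact h2 h3

theorem QY_diff (p p' : ℕ → Prop) : QY p \ QY p' = QY fun m => p m ∧ ¬ p' m := by
  ext z
  constructor
  · rintro ⟨⟨m, h1, rfl⟩, h2⟩
    exact ⟨m, ⟨h1, fun h => h2 ⟨m, h, rfl⟩⟩, rfl⟩
  · rintro ⟨m, ⟨h1, h2⟩, rfl⟩
    refine ⟨⟨m, h1, rfl⟩, ?_⟩
    rintro ⟨m', h3, h4⟩
    rw [Prod.mk.injEq] at h4
    rw [cast_inj' h4.2] at h2
    exact h2 h3

theorem RR_diff (r r' : ℕ → ℕ → Prop) : RR r \ RR r' = RR fun m n => r m n ∧ ¬ r' m n := by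
  ext z
  constructor
  · rintro ⟨⟨m, n, h1, rfl⟩, h2⟩
    exact ⟨m, n, ⟨h1, fun h => h2 ⟨m, n, h, rfl⟩⟩, rfl⟩
  · rintro ⟨m, n, ⟨h1, h2⟩, rfl⟩
    refine ⟨⟨m, n, h1, rfl⟩, ?_⟩
    rintro ⟨m', n', h3, h4⟩
    rw [Prod.mk.injEq] at h4
    rw [cast_inj' h4.1, cast_inj' h4.2] at h2
    exact h2 h3

theorem RR_inter (r r' : ℕ → ℕ → Prop) : RR r ∩ RR r' = RR fun m n => r m n ∧ r' m n := by
  ext z
  constructor
  · rintro ⟨⟨m, n, h1, rfl⟩, ⟨m', n', h2, h3⟩⟩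
    rw [Prod.mk.injEq] at h3
    obtain rfl := cast_inj' h3.1
    obtain rfl := cast_inj' h3.2
    exact ⟨m, n, ⟨h1, h2⟩, rfl⟩
  · rintro ⟨m, n, ⟨h1, h2⟩, rfl⟩
    exact ⟨⟨m, n, h1, rfl⟩, ⟨m, n, h2, rfl⟩⟩

theorem pr1_RR (r : ℕ → ℕ → Prop) : pr1 (RR r) = PX fun m => ∃ n, r m n := by
  ext ⟨x, y⟩
  rw [mem_pr1]
  constructor
  · rintro ⟨rfl, y', m, n, h1, h2⟩
    rw [Prod.mk.injEq] at h2
    exact ⟨m, ⟨n, h1⟩, by rw [h2.1]⟩
  · rintro ⟨m, ⟨n, h1⟩, h2⟩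
    rw [Prod.mk.injEq] at h2
    exact ⟨h2.2, (n : ℝ) + 1, m, n, h1, by rw [h2.1]⟩

theorem pr2_RR (r : ℕ → ℕ → Prop) : pr2 (RR r) = QY fun n => ∃ m, r m n := by
  ext ⟨x, y⟩
  rw [mem_pr2]
  constructor
  · rintro ⟨rfl, y', m, n, h1, h2⟩
    rw [Prod.mk.injEq] at h2
    exact ⟨n, ⟨m, h1⟩, by rw [h2.2]⟩
  · rintro ⟨n, ⟨m, h1⟩, h2⟩
    rw [Prod.mk.injEq] at h2
    exact ⟨h2.1, (m : ℝ) + 1, m, n, h1, by rw [h2.2]⟩

theorem PX_sub (p : ℕ → Prop) : PX p ⊆ axisX := by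
  rintro z ⟨m, -, rfl⟩
  rfl

theorem QY_sub (p : ℕ → Prop) : QY p ⊆ axisY := by
  rintro z ⟨m, -, rfl⟩
  rfl

theorem dprod_PX_QY (p q : ℕ → Prop) : dprod (PX p) (QY q) = RR fun m n => p m ∧ q n := by
  ext ⟨x, y⟩
  rw [mem_dprod]
  constructor
  · rintro ⟨⟨m, h1, h2⟩, ⟨n, h3, h4⟩⟩
    rw [Prod.mk.injEq] at h2 h4
    exact ⟨m, n, ⟨h1, h3⟩, by rw [h2.1, h4.2]⟩
  · rintro ⟨m, n, ⟨h1, h2⟩, h3⟩
    rw [Prod.mk.injEq] at h3
    exact ⟨⟨m, h1, by rw [h3.1]⟩, ⟨n, h2, by rw [h3.2]⟩⟩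

section

variable {S : Fin 1 → Set (ℝ × ℝ)}

theorem eval_inter (t s : Term 1) : (T1.inter t s).eval S = t.eval S ∩ s.eval S := by
  show ((t.eval S)ᶜ ∪ (s.eval S)ᶜ)ᶜ = _
  rw [compl_union, compl_compl, compl_compl]

theorem eval_diff (t s : Term 1) : (T1.diff t s).eval S = t.eval S \ s.eval S := by
  rw [T1.diff, eval_inter]
  rfl

theorem eval_dprod {t s : Term 1} {p q : ℕ → Prop} (h1 : t.eval S = PX p) (h2 : s.eval S = QY q) :
    (Term.dprod t s).eval S = RR fun m n => p m ∧ q n := by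
  show PA.dprod (PA.pr1 (t.eval S)) (PA.pr2 (s.eval S)) = _
  rw [h1, h2, pr1_of_subset (PX_sub _), pr2_of_subset (QY_sub _), dprod_PX_QY]

end

theorem eval_H (A : Set ℕ) : T1.H.eval (fun _ => SA A) = RR fun m n => m ≤ n := by
  rw [T1.H, eval_diff]
  have h1 : T1.ax.eval (fun _ => SA A) = axisX := by
    show pr1 (SA A ∪ (SA A)ᶜ) = _
    rw [union_compl_self]
    ext ⟨x, y⟩
    rw [mem_pr1]
    exact ⟨fun h => h.1, fun h => ⟨h, 0, trivial⟩⟩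
  rw [h1]
  show SA A \ axisX = _
  ext z
  constructor
  · rintro ⟨h | ⟨m, -, rfl⟩, h2⟩
    · obtain ⟨m, n, h3, h4⟩ := h
      exact ⟨m, n, h3, h4⟩
    · exact absurd rfl h2
  · rintro ⟨m, n, h, rfl⟩
    exact ⟨Or.inl ⟨m, n, h, rfl⟩, fun h' => ne_zero' n h'⟩

theorem eval_dom (A : Set ℕ) : T1.dom.eval (fun _ => SA A) = PX fun _ => True := by
  show pr1 (T1.H.eval _) = _
  rw [eval_H, pr1_RR]
  congr 1
  funext m
  exact eq_true ⟨m, le_rfl⟩

theorem eval_ran (A : Set ℕ) : T1.ran.eval (fun _ => SA A) = QY fun _ => True := by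
  show pr2 (T1.H.eval _) = _
  rw [eval_H, pr2_RR]
  congr 1
  funext m
  exact eq_true ⟨m, le_rfl⟩

theorem eval_step (A : Set ℕ) {Q : Term 1} {N : ℕ}
    (hQ : Q.eval (fun _ => SA A) = QY fun n => n < N) :
    (T1.diff T1.dom (Term.pr1 (T1.diff (Term.dprod T1.dom (T1.diff T1.ran Q)) T1.H))).eval
      (fun _ => SA A) = PX fun m => m ≤ N := by
  have h1 : (T1.diff T1.ran Q).eval (fun _ => SA A) = QY fun n => True ∧ ¬ n < N := by
    rw [eval_diff, eval_ran, hQ, QY_diff]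
  have h2 := eval_dprod (eval_dom A) h1
  rw [eval_diff, eval_dom]
  show _ \ pr1 (Term.eval _ (T1.diff (Term.dprod T1.dom (T1.diff T1.ran Q)) T1.H)) = _
  rw [eval_diff, h2, eval_H, RR_diff, pr1_RR, PX_diff]
  congr 1
  funext m
  simp only [true_and, not_lt, not_exists, not_and, not_le, eq_iff_iff]
  constructor
  · intro h
    by_contra hc
    push Not at hc
    exact absurd (h N le_rfl) (by omega)
  · intro h n h1
    omega

theorem eval_seg (A : Set ℕ) (n : ℕ) :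
    (T1.seg n).1.eval (fun _ => SA A) = (PX fun m => m ≤ n) ∧
    (T1.seg n).2.eval (fun _ => SA A) = (QY fun m => m < n) := by
  induction n with
  | zero =>
    have h0 : (T1.diff T1.s T1.s).eval (fun _ => SA A) = QY fun m => m < 0 := by
      rw [eval_diff, diff_self]
      ext z
      simp [QY]
    refine ⟨?_, h0⟩
    have h1 := eval_step A h0
    have h2 : (T1.diff T1.ran (T1.diff T1.s T1.s)).eval (fun _ => SA A) =
        T1.ran.eval (fun _ => SA A) := by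
      rw [eval_diff, eval_diff, diff_self, diff_empty]
    rw [← h1]
    show (T1.diff T1.dom (Term.pr1 (T1.diff (Term.dprod T1.dom T1.ran) T1.H))).eval _ = _
    rw [eval_diff, eval_diff]
    show _ \ pr1 (Term.eval _ (T1.diff (Term.dprod T1.dom T1.ran) T1.H)) =
      _ \ pr1 (Term.eval _ (T1.diff (Term.dprod T1.dom (T1.diff T1.ran (T1.diff T1.s T1.s))) T1.H))
    rw [eval_diff, eval_diff]
    show _ \ pr1 (PA.dprod (PA.pr1 (Term.eval _ T1.dom)) (PA.pr2 (Term.eval _ T1.ran)) \ _) =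
      _ \ pr1 (PA.dprod (PA.pr1 (Term.eval _ T1.dom))
        (PA.pr2 (Term.eval _ (T1.diff T1.ran (T1.diff T1.s T1.s)))) \ _)
    rw [h2]
  | succ n ih =>
    have h1 : (T1.seg (n + 1)).2.eval (fun _ => SA A) = QY fun m => m < n + 1 := by
      show (T1.diff T1.ran (Term.pr2 (T1.inter (Term.dprod (T1.diff T1.dom (T1.seg n).1) T1.ran)
        T1.H))).eval _ = _
      have h2 : (T1.diff T1.dom (T1.seg n).1).eval (fun _ => SA A) =
          PX fun m => True ∧ ¬ m ≤ n := by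
        rw [eval_diff, eval_dom, ih.1, PX_diff]
      have h3 := eval_dprod h2 (eval_ran A)
      rw [eval_diff, eval_ran]
      show _ \ pr2 (Term.eval _ (T1.inter (Term.dprod (T1.diff T1.dom (T1.seg n).1) T1.ran)
        T1.H)) = _
      rw [eval_inter, h3, eval_H, RR_inter, pr2_RR, QY_diff]
      congr 1
      funext j
      simp only [true_and, and_true, not_le, not_exists, not_and, eq_iff_iff]
      constructor
      · intro h
        by_contra hc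
        exact absurd (h (n + 1) (by omega)) (by omega)
      · intro h m hm
        omega
    exact ⟨eval_step A h1, h1⟩

theorem eval_mark (A : Set ℕ) (m : ℕ) : (T1.mark m).eval (fun _ => SA A) = ∅ ↔ m ∉ A := by
  have h1 : (T1.mark m).eval (fun _ => SA A) = (PX fun j => j = m) ∩ SA A := by
    cases m with
    | zero =>
      show (T1.inter (T1.seg 0).1 T1.s).eval _ = _
      rw [eval_inter, (eval_seg A 0).1]
      simp only [Nat.le_zero]
      rfl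
    | succ m =>
      show (T1.inter (T1.diff (T1.seg (m + 1)).1 (T1.seg m).1) T1.s).eval _ = _
      rw [eval_inter, eval_diff, (eval_seg A (m + 1)).1, (eval_seg A m).1, PX_diff]
      have : (fun j => j ≤ m + 1 ∧ ¬ j ≤ m) = fun j => j = m + 1 := by
        funext j
        simp only [eq_iff_iff]
        omega
      rw [this]
      rfl
  rw [h1]
  constructor
  · intro h hm
    have : (((m : ℝ) + 1, (0 : ℝ)) : ℝ × ℝ) ∈ (PX fun j => j = m) ∩ SA A :=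
      ⟨⟨m, rfl, rfl⟩, Or.inr ⟨m, hm, rfl⟩⟩
    rw [h] at this
    exact this
  · intro hm
    rw [Set.eq_empty_iff_forall_notMem]
    rintro z ⟨⟨j, rfl, rfl⟩, ⟨a, b, -, h2⟩ | ⟨a, ha, h2⟩⟩
    · rw [Prod.mk.injEq] at h2
      exact ne_zero' b h2.2.symm
    · rw [Prod.mk.injEq] at h2
      rw [cast_inj' h2.1] at hm
      exact hm ha

/-- A morphism value determines the marks. -/
theorem marks_of_mor {A : Set ℕ} {F : Set (Set (ℝ × ℝ))} {φ : Set (ℝ × ℝ) → Set (ℝ × ℝ)}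
    (hF : IsProjAlg F) (hA : SA A ∈ F) (hφ : Mor φ F) (hi : InjOn φ F) (m : ℕ) :
    (T1.mark m).eval (fun _ => φ (SA A)) = ∅ ↔ m ∉ A := by
  have hr : range (fun _ : Fin 1 => SA A) ⊆ F := by
    rintro _ ⟨i, rfl⟩
    exact hA
  rw [← hφ.eval hF hr, ← eval_mark]
  constructor
  · intro h
    exact hi (Term.eval_mem hF hr _) hF.empty_mem (h.trans (hφ.empty hF).symm)
  · intro h
    rw [h, hφ.empty hF]

theorem eq_of_value {A B : Set ℕ} {F G : Set (Set (ℝ × ℝ))} {φ ψ : Set (ℝ × ℝ) → Set (ℝ × ℝ)}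
    (hF : IsProjAlg F) (hA : SA A ∈ F) (hφ : Mor φ F) (hi : InjOn φ F)
    (hG : IsProjAlg G) (hB : SA B ∈ G) (hψ : Mor ψ G) (hj : InjOn ψ G)
    (h : φ (SA A) = ψ (SA B)) : A = B := by
  ext m
  have h1 := marks_of_mor hF hA hφ hi m
  have h2 := marks_of_mor hG hB hψ hj m
  rw [h] at h1
  rw [← not_iff_not]
  exact h1.symm.trans h2

/-- The algebra of a set of marks. -/
def FA (A : Set ℕ) : Set (Set (ℝ × ℝ)) := gen (range fun _ : Fin 1 => SA A)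

theorem isProjAlg_FA (A : Set ℕ) : IsProjAlg (FA A) := isProjAlg_gen (by norm_num) _

theorem SA_mem (A : Set ℕ) : SA A ∈ FA A := fun _ _ h => h ⟨0, rfl⟩

end Pool.Agent.H438R3.PA
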